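import Pool.Agent.Helper65.HCS.Goals
import Pool.Agent.Helper79.HC.TREE

/-! HCS: CHK, the checks of descriptions are right. -/

namespace Pool.Agent.Helper93.HCS

open Pool.Agent.Helper65.LinSpace Pool.Agent.Helper78.Mpc Pool.Agent.Helper28.Ram Finset
open Pool.Agent.Helper65.HC Pool.Agent.Helper65.HCS
open Pool.Agent.Helper81.Sus2 (Decomp)

theorem eq01_ne {x y : ℕ} : eq01 x y ≠ 0 ↔ x = y := by
  unfold eq01
  split_ifs with h
  · simp [h]
  · simp [h]

theorem lt01_ne {x y : ℕ} : lt01 x y ≠ 0 ↔ x < y := by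
  unfold lt01
  split_ifs with h
  · simp [h]
  · simp [h]

theorem win_ok (P : Pool.Agent.Helper65.HCS.Prm) (hB : 0 < P.B) (c : ℕ) : (P.win c).Ok where
  hσ := Nat.succ_pos _
  hB := hB
  hst := by
    show 1 < 2 ^ (P.S + 1)
    exact Nat.one_lt_two_pow (by omega)
  hstep _ _ _ _ := capN_lt _ _
  hout _ _ := capN_lt _ _

theorem sim_eq (P : Pool.Agent.Helper65.HCS.Prm) (hB : 0 < P.B) (c : ℕ) {e : ℕ} (he : e < P.N) :
    (P.win c).sim e = (P.win c).val e :=
  Pool.Agent.Helper79.HC.tree _ (win_ok P hB c) e he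

theorem nrec_congr {g : ℕ} {k k' : ℕ → ℕ → ℕ} {n : ℕ} (h : ∀ i < n, ∀ q, k i q = k' i q) :
    nrec g k n = nrec g k' n := by
  induction n with
  | zero => rfl
  | succ n ih =>
    rw [nrec_succ, nrec_succ, ih fun i hi q => h i (by omega) q, h n (by omega)]

theorem sta_eq (P : Pool.Agent.Helper65.HCS.Prm) (hB : 0 < P.B) (c i : ℕ) {τ : ℕ} (hτ : τ ≤ P.N) :
    P.sta (P.win c).sim c τ i = P.sta (P.win c).val c τ i := by
  unfold Prm.sta
  refine nrec_congr fun e he q => ?_
  rw [sim_eq P hB c (by omega)]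

theorem letN_zero {w y : List Bool} {i : ℕ} (h : (w ++ y).length ≤ i) :
    letN (catN (num w) (num y)) i = 0 := by
  rw [catN_num, letN_num, List.getElem?_eq_none h]
  rfl

theorem letN_ne {w y : List Bool} {i : ℕ} (h : i < (w ++ y).length) :
    letN (catN (num w) (num y)) i ≠ 0 := by
  rw [catN_num, letN_num, List.getElem?_eq_getElem h]
  show 1 + _ ≠ 0
  omega

/-- The meaning of `bad`. -/
theorem bad_eq_zero (P : Pool.Agent.Helper65.HCS.Prm) (r c τ d i : ℕ) (h1 : P.ct d ≤ i)
    (h2 : i ≤ r) (h3 : letN (catN P.x P.y) i = 0) :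
    P.bad r c τ d i = 0 ↔ P.sta (P.win c).sim c τ i ≠ 0 ∧
      P.sta (P.win c).sim c τ i = P.dc.lk (P.cD d) (bitsN i) := by
  have e1 : lt01 i (P.ct d) + (lt01 r i + letN (catN P.x P.y) i) = 0 := by
    rw [h3, lt01, if_neg (by omega), lt01, if_neg (by omega)]
  unfold Prm.bad
  rw [e1]
  generalize P.sta (P.win c).sim c τ i = a
  generalize P.dc.lk (P.cD d) (bitsN i) = b
  unfold ifz lt01 eq01
  rw [if_pos rfl]
  by_cases ha : 0 < a
  · by_cases hb : a = b
    · subst hb
      simp [ha, ha.ne']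
    · simp [hb]
  · have h0 : a = 0 := by omega
    simp [h0]

theorem chk : CHK_stmt := by
  intro A w y P r hR hx hy hB hr
  refine ⟨?_, ?_, ?_⟩
  · intro c t τ d hc hτ hne
    unfold Prm.chk at hne
    obtain ⟨-, hne⟩ := mul_ne_zero_iff.1 hne
    obtain ⟨h2, hne⟩ := mul_ne_zero_iff.1 hne
    obtain ⟨h3, hne⟩ := mul_ne_zero_iff.1 hne
    obtain ⟨h4, h5⟩ := mul_ne_zero_iff.1 hne
    rw [lt01_ne] at h2 h3
    rw [eq01_ne] at h4 h5
    rw [hc.ct] at h4
    have h6 : ∀ i, t + τ ≤ i → i ≤ r → (w ++ y).length ≤ i →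
        (P.sta (P.win c).val c τ i ≠ 0 ∧
          P.sta (P.win c).val c τ i = P.dc.lk (P.cD d) (bitsN i)) := by
      intro i hi1 hi2 hi3
      have h7 := (Finset.sum_eq_zero_iff.1 h5) i (by simp; omega)
      rw [bad_eq_zero P r c τ d i (by omega) hi2 (by rw [hx, hy]; exact letN_zero hi3),
        sta_eq P hB c i hτ.le] at h7
      exact h7
    refine ⟨⟨h2.ne', h4, ?_, ?_⟩, h3⟩
    · intro i hi1 hi2 hi3
      exact (hR.s1 c t hc τ i hi1 hi2 hi3 (h6 i hi1 hi2 hi3).1).2
    · intro i hi1 hi2 hi3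
      obtain ⟨h7, h8⟩ := h6 i hi1 hi2 hi3
      obtain ⟨h9, h10⟩ := hR.s1 c t hc τ i hi1 hi2 hi3 h7
      unfold Prm.pre
      rw [ifz_ne (by omega), ← h8, h9, capN_num h10]
  · intro c t τ hc hτ hne
    unfold Prm.ac at hne
    obtain ⟨-, hne⟩ := mul_ne_zero_iff.1 hne
    obtain ⟨h2, h3⟩ := mul_ne_zero_iff.1 hne
    rw [eq01_ne, hc.ct] at h2
    rw [sim_eq P hB c hτ] at h3
    have h4 : (P.win c).val τ ≠ 0 := by
      intro h
      rw [h] at h3
      exact h3 rfl
    obtain ⟨h5, -⟩ := hR.v1 c t hc τ (by omega) h4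
    rw [h5, h2] at h3
    exact (accN_num _).1 (le_antisymm (accN_le _) (Nat.pos_of_ne_zero h3))
  · intro hF hA c t hc
    refine ⟨?_, ?_⟩
    · intro τ h1 hτ
      unfold Prm.ac
      refine mul_ne_zero (lt01_ne.2 (Nat.pos_of_ne_zero hc.ne)) (mul_ne_zero ?_ ?_)
      · rw [eq01_ne, hc.ct, h1]
      · rw [sim_eq P hB c hτ, hR.v2 hF c t hc τ (by omega), h1, (accN_num _).2 hA]
        exact one_ne_zero
    · rintro E u hE htu hur huN ⟨D, hD, hS⟩
      have hb : 0 < 2 ^ P.b := by positivity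
      have hu : u < 2 ^ P.b := by omega
      have hnum : num D < 2 ^ (P.z + 1) := by
        have h1 := Nat.lt_pow_succ_log_self (b := 2) (by norm_num) (num D)
        rw [log_num] at h1
        exact lt_of_lt_of_le h1 (Nat.pow_le_pow_right (by norm_num) (by omega))
      have e0 : 1 + u + 2 ^ P.b * num D - 1 = u + 2 ^ P.b * num D := by omega
      have e1 : P.ct (1 + u + 2 ^ P.b * num D) = u := by
        unfold Prm.ct
        rw [e0, Nat.add_mul_mod_self_left, Nat.mod_eq_of_lt hu]
      have e2 : P.cD (1 + u + 2 ^ P.b * num D) = num D := by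
        unfold Prm.cD
        rw [e0, Nat.add_mul_div_left _ _ hb, Nat.div_eq_of_lt hu, zero_add]
      refine ⟨1 + u + 2 ^ P.b * num D, ?_, ?_⟩
      · unfold Prm.cz
        have h1 : 2 ^ P.b * (num D + 1) ≤ 2 ^ P.b * 2 ^ (P.z + 1) :=
          Nat.mul_le_mul_left _ hnum
        rw [mul_add, mul_one] at h1
        omega
      · unfold Prm.chk
        refine mul_ne_zero (lt01_ne.2 (Nat.pos_of_ne_zero hc.ne)) (mul_ne_zero
          (lt01_ne.2 (by omega)) (mul_ne_zero (lt01_ne.2 (by omega)) (mul_ne_zero ?_ ?_)))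
        · rw [eq01_ne, e1, hc.ct]
          omega
        · rw [eq01_ne]
          refine Finset.sum_eq_zero fun i _ => ?_
          by_cases hi : u ≤ i ∧ i ≤ r ∧ (w ++ y).length ≤ i
          · obtain ⟨hi1, hi2, hi3⟩ := hi
            have h1 := hR.s2 hF c t hc (u - t) i (by omega) hi2 hi3
            have h2 := hE _ _ _ (hS i hi1 hi2 hi3)
            rw [show t + (u - t) = u by omega] at h1
            rw [bad_eq_zero P r c _ _ i (by omega) hi2 (by rw [hx, hy]; exact letN_zero hi3),
              sta_eq P hB c i (by omega), h1, e2, bitsN_eq, h2]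
            exact ⟨(num_pos _).ne', rfl⟩
          · unfold Prm.bad
            rw [e1]
            refine ifz_ne ?_ _ _
            intro h
            apply hi
            refine ⟨?_, ?_, ?_⟩
            · by_contra h'
              rw [lt01, if_pos (by omega)] at h
              omega
            · by_contra h'
              rw [lt01, lt01, if_pos (show r < i by omega)] at h
              omega
            · by_contra h'
              have h3 := letN_ne (w := w) (y := y) (i := i) (by omega)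
              rw [← hx, ← hy] at h3
              omega

end Pool.Agent.Helper93.HCS
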